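import Mathlib

set_option autoImplicit false

open MeasureTheory Filter Topology
open scoped ENNReal NNReal

namespace Pool.Agent.Results.MP_6e3e44_an.LipInterp

/-- Lebesgue measure on `[0,1]`. -/
noncomputable abbrev mu : Measure ℝ := volume.restrict (Set.Icc 0 1)

/-- The `L^p` norm of the difference of two elements of `L^β[0,1]`. -/
noncomputable def dnorm {β : ℝ≥0∞} (p : ℝ≥0∞) (x y : Lp ℂ β mu) : ℝ≥0∞ :=
  eLpNorm (fun t => x t - y t) p mu

/-- The map `U : L^β → L^β` maps `L^p ∩ L^β` into `L^p` and is Lipschitz there with constant `M`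
for the norm of `L^p`. -/
def LipschitzOnLp {β : ℝ≥0∞} (p : ℝ≥0∞) (M : ℝ≥0) (U : Lp ℂ β mu → Lp ℂ β mu) : Prop :=
  (∀ x : Lp ℂ β mu, MemLp x p mu → MemLp (U x) p mu) ∧
  ∀ x y : Lp ℂ β mu, MemLp x p mu → MemLp y p mu → dnorm p (U x) (U y) ≤ M * dnorm p x y

/-- `L^γ[0,1]` is a Lipschitz interpolation space with constant `C` between `L^β[0,1]` and
`L^α[0,1]` (complex-valued functions, `β < γ < α`): every map `U : L^β → L^β` which is Lipschitz
with constant `M₀` on `L^β` and maps `L^α` into `L^α` and is Lipschitz there with constant `M₁`,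
maps `L^γ` into `L^γ` and is Lipschitz there with constant `C max(M₀,M₁)`. -/
def IsLipschitzInterpolationSpace (β γ α : ℝ≥0∞) (C : ℝ≥0) : Prop :=
  ∀ (U : Lp ℂ β mu → Lp ℂ β mu) (M₀ M₁ : ℝ≥0),
    LipschitzOnLp β M₀ U → LipschitzOnLp α M₁ U → LipschitzOnLp γ (C * max M₀ M₁) U

lemma dnorm_eq {β : ℝ≥0∞} (p : ℝ≥0∞) (x y : Lp ℂ β mu) :
    dnorm p x y = eLpNorm (x - y : Lp ℂ β mu) p mu :=
  (eLpNorm_congr_ae (Lp.coeFn_sub x y)).symm

/-- Sanity check: the identity satisfies the hypotheses with constants `1`. -/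
lemma lipschitzOnLp_id {β : ℝ≥0∞} (p : ℝ≥0∞) : LipschitzOnLp (β := β) p 1 id :=
  ⟨fun _ h => h, fun x y _ _ => by simp⟩

lemma int_Ioi (r s : ℝ) (hr : 0 < r) (hs : s < 0) :
    ∫⁻ l in Set.Ioi r, ENNReal.ofReal (l ^ (s - 1)) = ENNReal.ofReal (r ^ s / (-s)) := by
  rw [← ofReal_integral_eq_lintegral_ofReal]
  · rw [integral_Ioi_rpow_of_lt (by linarith) hr]
    congr 1
    rw [sub_add_cancel, neg_div, div_neg]
  · exact integrableOn_Ioi_rpow_of_lt (by linarith) hr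
  · filter_upwards [ae_restrict_mem measurableSet_Ioi] with l hl
    exact Real.rpow_nonneg (hr.trans hl).le _

lemma int_Ioc (r s : ℝ) (hr : 0 < r) (hs : 0 < s) :
    ∫⁻ l in Set.Ioc 0 r, ENNReal.ofReal (l ^ (s - 1)) = ENNReal.ofReal (r ^ s / s) := by
  rw [← ofReal_integral_eq_lintegral_ofReal]
  · rw [← intervalIntegral.integral_of_le hr.le, integral_rpow (Or.inl (by linarith))]
    congr 1
    rw [sub_add_cancel, Real.zero_rpow hs.ne', sub_zero]
  · rw [← IntegrableOn, ← intervalIntegrable_iff_integrableOn_Ioc_of_le hr.le]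
    exact intervalIntegral.intervalIntegrable_rpow' (by linarith)
  · filter_upwards [ae_restrict_mem measurableSet_Ioc] with l hl
    exact Real.rpow_nonneg hl.1.le _

section general

variable {Ω : Type*} [MeasurableSpace Ω] {ν : Measure Ω} [SFinite ν]

lemma fubini_low (g : Ω → ℝ) (hg : Measurable g) (hg0 : ∀ t, 0 ≤ g t) (a c : ℝ) (hc : 0 < c)
    (hac : c < a) :
    ∫⁻ l in Set.Ioi (0:ℝ), (∫⁻ t in {t | g t ≤ l}, ENNReal.ofReal (g t ^ a) ∂ν) *
      ENNReal.ofReal (l ^ (c - 1 - a)) ≤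
    ENNReal.ofReal (1 / (a - c)) * ∫⁻ t, ENNReal.ofReal (g t ^ c) ∂ν := by
  have hmeas : Measurable (fun z : ℝ × Ω => Set.indicator {z : ℝ × Ω | g z.2 ≤ z.1}
      (fun z => ENNReal.ofReal (g z.2 ^ a) * ENNReal.ofReal (z.1 ^ (c - 1 - a))) z) := by
    apply Measurable.indicator
    · fun_prop
    · exact measurableSet_le (hg.comp measurable_snd) measurable_fst
  have h1 : ∀ l : ℝ, (∫⁻ t in {t | g t ≤ l}, ENNReal.ofReal (g t ^ a) ∂ν) *
      ENNReal.ofReal (l ^ (c - 1 - a)) = ∫⁻ t, Set.indicator {z : ℝ × Ω | g z.2 ≤ z.1}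
      (fun z => ENNReal.ofReal (g z.2 ^ a) * ENNReal.ofReal (z.1 ^ (c - 1 - a))) (l, t) ∂ν := by
    intro l
    rw [← lintegral_mul_const _ (by fun_prop),
      ← lintegral_indicator (measurableSet_le hg measurable_const)]
    apply lintegral_congr
    intro t
    by_cases h : g t ≤ l
    · rw [Set.indicator_of_mem (by exact h), Set.indicator_of_mem (by exact h)]
    · rw [Set.indicator_of_notMem (by exact h), Set.indicator_of_notMem (by exact h)]
  simp_rw [h1]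
  rw [lintegral_lintegral_swap (by exact hmeas.aemeasurable)]
  rw [← lintegral_const_mul _ (by fun_prop)]
  apply lintegral_mono
  intro t
  show ∫⁻ l in Set.Ioi (0:ℝ), Set.indicator {z : ℝ × Ω | g z.2 ≤ z.1}
      (fun z => ENNReal.ofReal (g z.2 ^ a) * ENNReal.ofReal (z.1 ^ (c - 1 - a))) (l, t) ≤
    ENNReal.ofReal (1 / (a - c)) * ENNReal.ofReal (g t ^ c)
  rcases (hg0 t).eq_or_lt with h0 | h0
  · have : ∀ l : ℝ, Set.indicator {z : ℝ × Ω | g z.2 ≤ z.1}
      (fun z => ENNReal.ofReal (g z.2 ^ a) * ENNReal.ofReal (z.1 ^ (c - 1 - a))) (l, t) = 0 := by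
      intro l
      by_cases h : g t ≤ l
      · rw [Set.indicator_of_mem (by exact h)]
        simp only
        rw [← h0, Real.zero_rpow (by linarith), ENNReal.ofReal_zero, zero_mul]
      · rw [Set.indicator_of_notMem (by exact h)]
    simp_rw [this]
    simp
  · have h2 : ∀ l : ℝ, Set.indicator {z : ℝ × Ω | g z.2 ≤ z.1}
      (fun z => ENNReal.ofReal (g z.2 ^ a) * ENNReal.ofReal (z.1 ^ (c - 1 - a))) (l, t)
      = Set.indicator (Set.Ici (g t)) (fun l => ENNReal.ofReal (g t ^ a) *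
        ENNReal.ofReal (l ^ ((c - a) - 1))) l := by
      intro l
      have he : c - 1 - a = (c - a) - 1 := by ring
      by_cases h : g t ≤ l
      · rw [Set.indicator_of_mem (by exact h), Set.indicator_of_mem (by exact h), he]
      · rw [Set.indicator_of_notMem (by exact h), Set.indicator_of_notMem (by exact h)]
    simp_rw [h2]
    calc ∫⁻ l in Set.Ioi (0:ℝ), Set.indicator (Set.Ici (g t)) (fun l => ENNReal.ofReal (g t ^ a) *
        ENNReal.ofReal (l ^ ((c - a) - 1))) l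
        ≤ ∫⁻ l, Set.indicator (Set.Ici (g t)) (fun l => ENNReal.ofReal (g t ^ a) *
        ENNReal.ofReal (l ^ ((c - a) - 1))) l := lintegral_mono' Measure.restrict_le_self le_rfl
      _ = ∫⁻ l in Set.Ici (g t), ENNReal.ofReal (g t ^ a) *
        ENNReal.ofReal (l ^ ((c - a) - 1)) := lintegral_indicator measurableSet_Ici _
      _ = ∫⁻ l in Set.Ioi (g t), ENNReal.ofReal (g t ^ a) *
        ENNReal.ofReal (l ^ ((c - a) - 1)) := by
          rw [Measure.restrict_congr_set Ioi_ae_eq_Ici]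
      _ = ENNReal.ofReal (g t ^ a) * ENNReal.ofReal (g t ^ (c - a) / (-(c - a))) := by
          rw [lintegral_const_mul _ (by fun_prop), int_Ioi _ _ h0 (by linarith)]
      _ = ENNReal.ofReal (1 / (a - c)) * ENNReal.ofReal (g t ^ c) := by
          rw [← ENNReal.ofReal_mul (by positivity), ← ENNReal.ofReal_mul (by
            apply div_nonneg zero_le_one; linarith)]
          congr 1
          rw [neg_sub, mul_div_assoc', ← Real.rpow_add h0]
          ring_nf
      _ ≤ _ := le_rfl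

lemma fubini_high (g : Ω → ℝ) (hg : Measurable g) (hg0 : ∀ t, 0 ≤ g t) (b c : ℝ) (hbc : b < c) :
    ∫⁻ l in Set.Ioi (0:ℝ), (∫⁻ t in {t | l < g t}, ENNReal.ofReal (g t ^ b) ∂ν) *
      ENNReal.ofReal (l ^ (c - 1 - b)) ≤
    ENNReal.ofReal (1 / (c - b)) * ∫⁻ t, ENNReal.ofReal (g t ^ c) ∂ν := by
  have hmeas : Measurable (fun z : ℝ × Ω => Set.indicator {z : ℝ × Ω | z.1 < g z.2}
      (fun z => ENNReal.ofReal (g z.2 ^ b) * ENNReal.ofReal (z.1 ^ (c - 1 - b))) z) := by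
    apply Measurable.indicator
    · fun_prop
    · exact measurableSet_lt measurable_fst (hg.comp measurable_snd)
  have h1 : ∀ l : ℝ, (∫⁻ t in {t | l < g t}, ENNReal.ofReal (g t ^ b) ∂ν) *
      ENNReal.ofReal (l ^ (c - 1 - b)) = ∫⁻ t, Set.indicator {z : ℝ × Ω | z.1 < g z.2}
      (fun z => ENNReal.ofReal (g z.2 ^ b) * ENNReal.ofReal (z.1 ^ (c - 1 - b))) (l, t) ∂ν := by
    intro l
    rw [← lintegral_mul_const _ (by fun_prop),
      ← lintegral_indicator (measurableSet_lt measurable_const hg)]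
    apply lintegral_congr
    intro t
    by_cases h : l < g t
    · rw [Set.indicator_of_mem (by exact h), Set.indicator_of_mem (by exact h)]
    · rw [Set.indicator_of_notMem (by exact h), Set.indicator_of_notMem (by exact h)]
  simp_rw [h1]
  rw [lintegral_lintegral_swap (by exact hmeas.aemeasurable)]
  rw [← lintegral_const_mul _ (by fun_prop)]
  apply lintegral_mono
  intro t
  show ∫⁻ l in Set.Ioi (0:ℝ), Set.indicator {z : ℝ × Ω | z.1 < g z.2}
      (fun z => ENNReal.ofReal (g z.2 ^ b) * ENNReal.ofReal (z.1 ^ (c - 1 - b))) (l, t) ≤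
    ENNReal.ofReal (1 / (c - b)) * ENNReal.ofReal (g t ^ c)
  rw [← lintegral_indicator measurableSet_Ioi]
  rcases (hg0 t).eq_or_lt with h0 | h0
  · have : ∀ l : ℝ, Set.indicator (Set.Ioi (0:ℝ)) (fun l => Set.indicator {z : ℝ × Ω | z.1 < g z.2}
      (fun z => ENNReal.ofReal (g z.2 ^ b) * ENNReal.ofReal (z.1 ^ (c - 1 - b))) (l, t)) l = 0 := by
      intro l
      by_cases hl : 0 < l
      · rw [Set.indicator_of_mem (by exact hl), Set.indicator_of_notMem]
        intro h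
        have h' : l < g t := h
        linarith
      · rw [Set.indicator_of_notMem (by exact hl)]
    simp_rw [this]
    simp
  · calc ∫⁻ l, Set.indicator (Set.Ioi (0:ℝ)) (fun l => Set.indicator {z : ℝ × Ω | z.1 < g z.2}
      (fun z => ENNReal.ofReal (g z.2 ^ b) * ENNReal.ofReal (z.1 ^ (c - 1 - b))) (l, t)) l
        ≤ ∫⁻ l, Set.indicator (Set.Ioc 0 (g t)) (fun l => ENNReal.ofReal (g t ^ b) *
        ENNReal.ofReal (l ^ ((c - b) - 1))) l := by
          apply lintegral_mono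
          intro l
          have he : c - 1 - b = (c - b) - 1 := by ring
          by_cases hl : 0 < l
          · rw [Set.indicator_of_mem (by exact hl)]
            by_cases h : l < g t
            · rw [Set.indicator_of_mem (by exact h)]
              simp only
              rw [Set.indicator_of_mem (by exact ⟨hl, h.le⟩), he]
            · rw [Set.indicator_of_notMem (by exact h)]
              exact zero_le
          · rw [Set.indicator_of_notMem (by exact hl)]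
            exact zero_le
      _ = ∫⁻ l in Set.Ioc 0 (g t), ENNReal.ofReal (g t ^ b) *
        ENNReal.ofReal (l ^ ((c - b) - 1)) := lintegral_indicator measurableSet_Ioc _
      _ = ENNReal.ofReal (g t ^ b) * ENNReal.ofReal (g t ^ (c - b) / (c - b)) := by
          rw [lintegral_const_mul _ (by fun_prop), int_Ioc _ _ h0 (by linarith)]
      _ = ENNReal.ofReal (1 / (c - b)) * ENNReal.ofReal (g t ^ c) := by
          rw [← ENNReal.ofReal_mul (by positivity), ← ENNReal.ofReal_mul (by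
            apply div_nonneg zero_le_one; linarith)]
          congr 1
          rw [mul_div_assoc', ← Real.rpow_add h0]
          ring_nf
      _ ≤ _ := le_rfl

end general

lemma enorm_rpow_eq (z : ℂ) (a : ℝ) (ha : 0 ≤ a) : ‖z‖ₑ ^ a = ENNReal.ofReal (‖z‖ ^ a) := by
  rw [← ofReal_norm, ENNReal.ofReal_rpow_of_nonneg (norm_nonneg _) ha]

lemma eLpNorm_rpow (f : ℝ → ℂ) (p : ℝ≥0∞) (h0 : p ≠ 0) (h1 : p ≠ ∞) :
    eLpNorm f p mu ^ p.toReal = ∫⁻ t, ENNReal.ofReal (‖f t‖ ^ p.toReal) ∂mu := by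
  have hp : 0 < p.toReal := ENNReal.toReal_pos h0 h1
  rw [eLpNorm_eq_lintegral_rpow_enorm_toReal h0 h1, ← ENNReal.rpow_mul, one_div,
    inv_mul_cancel₀ hp.ne', ENNReal.rpow_one]
  simp_rw [enorm_rpow_eq _ _ hp.le]

/-- Truncation of `x` at height `l`. -/
noncomputable def trunc {β : ℝ≥0∞} (x : Lp ℂ β mu) (l : ℝ) : Lp ℂ β mu :=
  MemLp.toLp (Set.indicator {t | ‖x t‖ ≤ l} x) ((Lp.memLp x).indicator
    (measurableSet_le (Lp.stronglyMeasurable x).norm.measurable measurable_const))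

lemma trunc_ae {β : ℝ≥0∞} (x : Lp ℂ β mu) (l : ℝ) :
    trunc x l =ᵐ[mu] Set.indicator {t | ‖x t‖ ≤ l} x := MemLp.coeFn_toLp _

lemma meas_norm {β : ℝ≥0∞} (x : Lp ℂ β mu) : Measurable (fun t => ‖x t‖) :=
  (Lp.stronglyMeasurable x).norm.measurable

lemma trunc_memLp {β : ℝ≥0∞} (x : Lp ℂ β mu) (l : ℝ) (hl : 0 ≤ l) (α : ℝ≥0∞) :
    MemLp (trunc x l) α mu := by
  have h : MemLp (trunc x l) ∞ mu := by
    refine ⟨(Lp.memLp _).1, ?_⟩
    rw [eLpNorm_exponent_top]
    refine lt_of_le_of_lt (eLpNormEssSup_le_of_ae_bound (C := l) ?_) ENNReal.ofReal_lt_top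
    filter_upwards [trunc_ae x l] with t ht
    rw [ht]
    by_cases h : ‖x t‖ ≤ l
    · rw [Set.indicator_of_mem (by exact h)]
      exact h
    · rw [Set.indicator_of_notMem (by exact h), norm_zero]
      exact hl
  exact h.mono_exponent le_top

lemma trunc_norm {β : ℝ≥0∞} (x : Lp ℂ β mu) (l : ℝ) (α : ℝ≥0∞) (h0 : α ≠ 0) (h1 : α ≠ ∞) :
    eLpNorm (trunc x l) α mu ^ α.toReal
      = ∫⁻ t in {t | ‖x t‖ ≤ l}, ENNReal.ofReal (‖x t‖ ^ α.toReal) ∂mu := by
  have hp : 0 < α.toReal := ENNReal.toReal_pos h0 h1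
  rw [eLpNorm_rpow _ _ h0 h1,
    ← lintegral_indicator (measurableSet_le (meas_norm x) measurable_const)]
  apply lintegral_congr_ae
  filter_upwards [trunc_ae x l] with t ht
  rw [ht]
  by_cases h : ‖x t‖ ≤ l
  · rw [Set.indicator_of_mem (by exact h), Set.indicator_of_mem (by exact h)]
  · rw [Set.indicator_of_notMem (by exact h), Set.indicator_of_notMem (by exact h), norm_zero,
      Real.zero_rpow hp.ne', ENNReal.ofReal_zero]

lemma sub_trunc_norm {β : ℝ≥0∞} (x : Lp ℂ β mu) (l : ℝ) (h0 : β ≠ 0) (h1 : β ≠ ∞) :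
    eLpNorm (x - trunc x l : Lp ℂ β mu) β mu ^ β.toReal
      = ∫⁻ t in {t | l < ‖x t‖}, ENNReal.ofReal (‖x t‖ ^ β.toReal) ∂mu := by
  have hp : 0 < β.toReal := ENNReal.toReal_pos h0 h1
  rw [eLpNorm_rpow _ _ h0 h1,
    ← lintegral_indicator (measurableSet_lt measurable_const (meas_norm x))]
  apply lintegral_congr_ae
  filter_upwards [trunc_ae x l, Lp.coeFn_sub x (trunc x l)] with t ht ht2
  rw [ht2, Pi.sub_apply, ht]
  by_cases h : ‖x t‖ ≤ l
  · rw [Set.indicator_of_mem (by exact h), Set.indicator_of_notMem (by exact not_lt.2 h), sub_self,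
      norm_zero, Real.zero_rpow hp.ne', ENNReal.ofReal_zero]
  · rw [Set.indicator_of_notMem (by exact h), Set.indicator_of_mem (by exact not_le.1 h), sub_zero]

lemma scale (M N : ℝ≥0∞) (hM0 : M ≠ 0) (hM1 : M ≠ ∞) (l : ℝ) (hl : 0 < l) (a : ℝ) (ha : 0 ≤ a) :
    ((M * ENNReal.ofReal l)⁻¹) ^ a * (M * N) ^ a = ENNReal.ofReal (l ^ (-a)) * N ^ a := by
  rw [← ENNReal.mul_rpow_of_nonneg _ _ ha]
  have h1 : (M * ENNReal.ofReal l)⁻¹ * (M * N) = (ENNReal.ofReal l)⁻¹ * N := by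
    rw [ENNReal.mul_inv (Or.inl hM0) (Or.inl hM1)]
    calc M⁻¹ * (ENNReal.ofReal l)⁻¹ * (M * N) = (M⁻¹ * M) * ((ENNReal.ofReal l)⁻¹ * N) := by ring
      _ = _ := by rw [ENNReal.inv_mul_cancel hM0 hM1, one_mul]
  rw [h1, ENNReal.mul_rpow_of_nonneg _ _ ha, ← ENNReal.ofReal_inv_of_pos hl,
    ENNReal.ofReal_rpow_of_pos (inv_pos.2 hl), Real.inv_rpow hl.le, ← Real.rpow_neg hl.le]

/-- The weak-type estimate. -/
lemma weak_type {β α : ℝ≥0∞} (hβ0 : β ≠ 0) (hβ1 : β ≠ ∞) (hα0 : α ≠ 0) (hα1 : α ≠ ∞)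
    (V : Lp ℂ β mu → Lp ℂ β mu) (M : ℝ≥0) (hM : 0 < M)
    (hV0 : ∀ x y : Lp ℂ β mu,
      eLpNorm (V x - V y : Lp ℂ β mu) β mu ≤ M * eLpNorm (x - y : Lp ℂ β mu) β mu)
    (hV1 : ∀ x : Lp ℂ β mu, MemLp x α mu → eLpNorm (V x) α mu ≤ M * eLpNorm x α mu)
    (x : Lp ℂ β mu) (l : ℝ) (hl : 0 < l) :
    mu {t | l < ‖V x t‖ / (2 * M)} ≤
      ENNReal.ofReal (l ^ (-α.toReal)) *
        (∫⁻ t in {t | ‖x t‖ ≤ l}, ENNReal.ofReal (‖x t‖ ^ α.toReal) ∂mu) +
      ENNReal.ofReal (l ^ (-β.toReal)) *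
        (∫⁻ t in {t | l < ‖x t‖}, ENNReal.ofReal (‖x t‖ ^ β.toReal) ∂mu) := by
  set xl := trunc x l with hxl
  have hMr : (0:ℝ) < M := by exact_mod_cast hM
  have hM0 : (M : ℝ≥0∞) ≠ 0 := by
    rw [Ne, ENNReal.coe_eq_zero]
    exact hM.ne'
  set ε : ℝ≥0∞ := M * ENNReal.ofReal l with hε
  have hε0 : ε ≠ 0 := mul_ne_zero hM0 (by
    rw [Ne, ENNReal.ofReal_eq_zero, not_le]
    exact hl)
  have hε1 : ε ≠ ∞ := ENNReal.mul_ne_top ENNReal.coe_ne_top ENNReal.ofReal_ne_top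
  have hεr : ε = ENNReal.ofReal (M * l) := by
    rw [hε, ENNReal.ofReal_mul hMr.le, ENNReal.ofReal_coe_nnreal]
  have h1 : mu {t | l < ‖V x t‖ / (2 * M)} ≤
      mu {t | ε ≤ ‖V xl t‖ₑ} + mu {t | ε ≤ ‖(V x - V xl : Lp ℂ β mu) t‖ₑ} := by
    refine le_trans (measure_mono_ae ?_) (measure_union_le _ _)
    filter_upwards [Lp.coeFn_sub (V x) (V xl)] with t ht
    intro h
    have h' : l < ‖V x t‖ / (2 * M) := h
    rw [lt_div_iff₀ (by positivity)] at h'
    show ε ≤ ‖V xl t‖ₑ ∨ ε ≤ ‖(V x - V xl : Lp ℂ β mu) t‖ₑ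
    rw [ht, Pi.sub_apply, hεr, ← ofReal_norm, ← ofReal_norm]
    by_cases h2 : M * l ≤ ‖V xl t‖
    · left
      exact ENNReal.ofReal_le_ofReal h2
    · right
      apply ENNReal.ofReal_le_ofReal
      have h3 : ‖V x t‖ ≤ ‖V x t - V xl t‖ + ‖V xl t‖ := by
        calc ‖V x t‖ = ‖(V x t - V xl t) + V xl t‖ := by rw [sub_add_cancel]
          _ ≤ _ := norm_add_le _ _
      push Not at h2
      nlinarith
  refine h1.trans (add_le_add ?_ ?_)
  · refine (meas_ge_le_mul_pow_eLpNorm_enorm mu hα0 hα1 (Lp.memLp _).1 hε0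
      (fun h => absurd h hε1)).trans ?_
    rw [← trunc_norm x l α hα0 hα1, ← scale M _ hM0 ENNReal.coe_ne_top l hl _ ENNReal.toReal_nonneg]
    gcongr
    exact hV1 xl (trunc_memLp x l hl.le α)
  · refine (meas_ge_le_mul_pow_eLpNorm_enorm mu hβ0 hβ1 (Lp.memLp _).1 hε0
      (fun h => absurd h hε1)).trans ?_
    rw [← sub_trunc_norm x l hβ0 hβ1, ← scale M _ hM0 ENNReal.coe_ne_top l hl _ ENNReal.toReal_nonneg]
    gcongr
    exact hV0 x xl

/-- The semi-Lipschitz (Marcinkiewicz type) estimate. -/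
lemma semi {β γ α : ℝ≥0∞} (hβ : 1 ≤ β) (hβγ : β < γ) (hγα : γ < α) (hα : α < ∞)
    (V : Lp ℂ β mu → Lp ℂ β mu) (M : ℝ≥0) (hM : 0 < M)
    (hV0 : ∀ x y : Lp ℂ β mu,
      eLpNorm (V x - V y : Lp ℂ β mu) β mu ≤ M * eLpNorm (x - y : Lp ℂ β mu) β mu)
    (hV1 : ∀ x : Lp ℂ β mu, MemLp x α mu → eLpNorm (V x) α mu ≤ M * eLpNorm x α mu)
    (x : Lp ℂ β mu) :
    eLpNorm (V x) γ mu ≤ ENNReal.ofReal (2 * (γ.toReal *
      (1 / (α.toReal - γ.toReal) + 1 / (γ.toReal - β.toReal))) ^ (1 / γ.toReal)) * M *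
      eLpNorm x γ mu := by
  have hβ0 : β ≠ 0 := (lt_of_lt_of_le one_pos hβ).ne'
  have hβ1 : β ≠ ∞ := ((hβγ.trans hγα).trans hα).ne
  have hγ0 : γ ≠ 0 := (lt_of_le_of_lt zero_le hβγ).ne'
  have hγ1 : γ ≠ ∞ := (hγα.trans hα).ne
  have hα0 : α ≠ 0 := (lt_of_le_of_lt zero_le hγα).ne'
  set a := α.toReal with ha
  set b := β.toReal with hb
  set c := γ.toReal with hc
  have hb0 : 0 < b := ENNReal.toReal_pos hβ0 hβ1
  have hbc : b < c := (ENNReal.toReal_lt_toReal hβ1 hγ1).2 hβγ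
  have hca : c < a := (ENNReal.toReal_lt_toReal hγ1 hα.ne).2 hγα
  have hc0 : 0 < c := hb0.trans hbc
  have hMr : (0:ℝ) < M := by exact_mod_cast hM
  set N := ∫⁻ t, ENNReal.ofReal (‖x t‖ ^ c) ∂mu with hN
  have key : ∫⁻ t, ENNReal.ofReal ((‖V x t‖ / (2 * M)) ^ c) ∂mu ≤
      ENNReal.ofReal (c * (1 / (a - c) + 1 / (c - b))) * N := by
    rw [lintegral_rpow_eq_lintegral_meas_lt_mul mu (Eventually.of_forall (fun t => by positivity))
      ((meas_norm (V x)).div_const _).aemeasurable hc0, ENNReal.ofReal_mul hc0.le, mul_assoc]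
    gcongr
    calc ∫⁻ l in Set.Ioi (0:ℝ), mu {t | l < ‖V x t‖ / (2 * M)} * ENNReal.ofReal (l ^ (c - 1))
        ≤ ∫⁻ l in Set.Ioi (0:ℝ),
          ((∫⁻ t in {t | ‖x t‖ ≤ l}, ENNReal.ofReal (‖x t‖ ^ a) ∂mu) *
            ENNReal.ofReal (l ^ (c - 1 - a)) +
          (∫⁻ t in {t | l < ‖x t‖}, ENNReal.ofReal (‖x t‖ ^ b) ∂mu) *
            ENNReal.ofReal (l ^ (c - 1 - b))) := by
          apply setLIntegral_mono' measurableSet_Ioi
          intro l hl
          have hl' : 0 < l := hl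
          refine (mul_le_mul_left (weak_type hβ0 hβ1 hα0 hα.ne V M hM hV0 hV1 x l hl') _).trans ?_
          rw [add_mul]
          apply le_of_eq
          congr 1
          · rw [mul_comm (ENNReal.ofReal (l ^ (-α.toReal))), mul_assoc,
              ← ENNReal.ofReal_mul (by positivity), ← Real.rpow_add hl']
            congr 3
            ring
          · rw [mul_comm (ENNReal.ofReal (l ^ (-β.toReal))), mul_assoc,
              ← ENNReal.ofReal_mul (by positivity), ← Real.rpow_add hl']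
            congr 3
            ring
      _ = (∫⁻ l in Set.Ioi (0:ℝ),
          (∫⁻ t in {t | ‖x t‖ ≤ l}, ENNReal.ofReal (‖x t‖ ^ a) ∂mu) *
            ENNReal.ofReal (l ^ (c - 1 - a))) +
          ∫⁻ l in Set.Ioi (0:ℝ), (∫⁻ t in {t | l < ‖x t‖}, ENNReal.ofReal (‖x t‖ ^ b) ∂mu) *
            ENNReal.ofReal (l ^ (c - 1 - b)) := by
          apply lintegral_add_left
          apply Measurable.mul
          · apply Monotone.measurable
            intro l l' hll'
            apply lintegral_mono_set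
            intro t ht
            exact le_trans ht hll'
          · fun_prop
      _ ≤ ENNReal.ofReal (1 / (a - c)) * N + ENNReal.ofReal (1 / (c - b)) * N :=
          add_le_add (fubini_low _ (meas_norm x) (fun t => norm_nonneg _) a c hc0 hca)
            (fubini_high _ (meas_norm x) (fun t => norm_nonneg _) b c hbc)
      _ = ENNReal.ofReal (1 / (a - c) + 1 / (c - b)) * N := by
          rw [ENNReal.ofReal_add, add_mul]
          · apply div_nonneg zero_le_one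
            linarith
          · apply div_nonneg zero_le_one
            linarith
  have hK : 0 ≤ c * (1 / (a - c) + 1 / (c - b)) := by
    have h1 : 0 < a - c := by linarith
    have h2 : 0 < c - b := by linarith
    positivity
  have h1 : eLpNorm (V x) γ mu ^ c ≤
      (ENNReal.ofReal (2 * (c * (1 / (a - c) + 1 / (c - b))) ^ (1 / c)) * M *
        eLpNorm x γ mu) ^ c := by
    rw [hc, eLpNorm_rpow _ _ hγ0 hγ1, ← hc]
    have h2 : ∀ t, ENNReal.ofReal (‖V x t‖ ^ c)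
        = ENNReal.ofReal ((2 * M) ^ c) * ENNReal.ofReal ((‖V x t‖ / (2 * M)) ^ c) := by
      intro t
      rw [← ENNReal.ofReal_mul (by positivity), ← Real.mul_rpow (by positivity) (by positivity)]
      congr 2
      field_simp
    simp_rw [h2]
    rw [lintegral_const_mul _ (by
      have := meas_norm (V x)
      fun_prop)]
    refine (mul_le_mul_right key _).trans (le_of_eq ?_)
    rw [ENNReal.mul_rpow_of_nonneg _ _ hc0.le, hc, eLpNorm_rpow _ _ hγ0 hγ1, ← hc, ← hN,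
      ← mul_assoc]
    congr 1
    rw [← ENNReal.ofReal_mul (by positivity)]
    rw [← ENNReal.ofReal_coe_nnreal, ← ENNReal.ofReal_mul (by positivity),
      ENNReal.ofReal_rpow_of_nonneg (by positivity) hc0.le]
    congr 1
    have h3 : 1 / c * c = 1 := by field_simp
    rw [Real.mul_rpow (by positivity) (by positivity), Real.mul_rpow (by positivity) (by positivity),
      Real.mul_rpow (by positivity) (by positivity), ← Real.rpow_mul hK, h3, Real.rpow_one]
    ring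
  exact (ENNReal.rpow_le_rpow_iff hc0).1 h1

/-- The shifted operators `V_y(x) = U(x+y) - U(y)`, `y ∈ L^α`, satisfy the semi-Lipschitz
hypotheses uniformly in `y`. -/
lemma shifted {β γ α : ℝ≥0∞} (hβ : 1 ≤ β) (hβγ : β < γ) (hγα : γ < α) (hα : α < ∞)
    (U : Lp ℂ β mu → Lp ℂ β mu) (M : ℝ≥0) (hM : 0 < M)
    (hU0 : ∀ x y : Lp ℂ β mu,
      eLpNorm (U x - U y : Lp ℂ β mu) β mu ≤ M * eLpNorm (x - y : Lp ℂ β mu) β mu)
    (hU1 : ∀ x y : Lp ℂ β mu, MemLp x α mu → MemLp y α mu →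
      eLpNorm (U x - U y : Lp ℂ β mu) α mu ≤ M * eLpNorm (x - y : Lp ℂ β mu) α mu)
    (x y : Lp ℂ β mu) (hy : MemLp y α mu) :
    eLpNorm (U (x + y) - U y : Lp ℂ β mu) γ mu ≤ ENNReal.ofReal (2 * (γ.toReal *
      (1 / (α.toReal - γ.toReal) + 1 / (γ.toReal - β.toReal))) ^ (1 / γ.toReal)) * M *
      eLpNorm x γ mu := by
  refine semi hβ hβγ hγα hα (fun x => U (x + y) - U y) M hM ?_ ?_ x
  · intro x x'
    show eLpNorm ((U (x + y) - U y) - (U (x' + y) - U y) : Lp ℂ β mu) β mu ≤ _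
    rw [sub_sub_sub_cancel_right]
    have h := hU0 (x + y) (x' + y)
    rwa [add_sub_add_right_eq_sub] at h
  · intro x hx
    have hxy : MemLp (x + y : Lp ℂ β mu) α mu :=
      (memLp_congr_ae (Lp.coeFn_add x y)).2 (hx.add hy)
    have h := hU1 (x + y) y hxy hy
    rwa [add_sub_cancel_right] at h

/-- Truncations converge in the norm of `L^β`. -/
lemma trunc_tendsto {β : ℝ≥0∞} [Fact (1 ≤ β)] (hβ1 : β ≠ ∞) (y : Lp ℂ β mu) :
    Tendsto (fun n : ℕ => trunc y (n : ℝ)) atTop (𝓝 y) := by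
  have hβ : 1 ≤ β := Fact.out
  have hβ0 : β ≠ 0 := (lt_of_lt_of_le one_pos hβ).ne'
  have hb : 0 < β.toReal := ENNReal.toReal_pos hβ0 hβ1
  rw [Lp.tendsto_Lp_iff_tendsto_eLpNorm']
  have h1 : ∀ n : ℕ, eLpNorm (⇑(trunc y (n:ℝ)) - ⇑y) β mu
      = (∫⁻ t in {t | (n:ℝ) < ‖y t‖}, ENNReal.ofReal (‖y t‖ ^ β.toReal) ∂mu) ^ (1 / β.toReal) := by
    intro n
    rw [← sub_trunc_norm y n hβ0 hβ1, ← ENNReal.rpow_mul]
    have h3 : β.toReal * (1 / β.toReal) = 1 := by field_simp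
    rw [h3, ENNReal.rpow_one, eLpNorm_sub_comm]
    exact (eLpNorm_congr_ae (Lp.coeFn_sub _ _)).symm
  simp_rw [h1]
  have h2 : Tendsto (fun n : ℕ => ∫⁻ t in {t | (n:ℝ) < ‖y t‖},
      ENNReal.ofReal (‖y t‖ ^ β.toReal) ∂mu) atTop (𝓝 0) := by
    have h4 : ∀ n : ℕ, ∫⁻ t in {t | (n:ℝ) < ‖y t‖}, ENNReal.ofReal (‖y t‖ ^ β.toReal) ∂mu
        = ∫⁻ t, Set.indicator {t | (n:ℝ) < ‖y t‖}
          (fun t => ENNReal.ofReal (‖y t‖ ^ β.toReal)) t ∂mu := fun n =>
      (lintegral_indicator (measurableSet_lt measurable_const (meas_norm y)) _).symm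
    simp_rw [h4]
    have h5 : (0 : ℝ≥0∞) = ∫⁻ _ : ℝ, 0 ∂mu := by simp
    rw [h5]
    have hmn := meas_norm y
    refine tendsto_lintegral_of_dominated_convergence
      (fun t => ENNReal.ofReal (‖y t‖ ^ β.toReal)) ?_ ?_ ?_ ?_
    · intro n
      exact Measurable.indicator (by fun_prop) (measurableSet_lt measurable_const hmn)
    · intro n
      apply Eventually.of_forall
      intro t
      exact Set.indicator_le_self _ _ _
    · rw [← eLpNorm_rpow _ _ hβ0 hβ1]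
      exact ENNReal.rpow_ne_top_of_nonneg hb.le (Lp.memLp y).2.ne
    · apply Eventually.of_forall
      intro t
      apply tendsto_const_nhds.congr'
      obtain ⟨N, hN⟩ := exists_nat_ge ‖y t‖
      filter_upwards [eventually_ge_atTop N] with n hn
      rw [Set.indicator_of_notMem]
      intro h
      have h' : (n:ℝ) < ‖y t‖ := h
      have : (N:ℝ) ≤ n := by exact_mod_cast hn
      linarith
  have h6 := h2.ennrpow_const (1 / β.toReal)
  rwa [ENNReal.zero_rpow_of_pos (by positivity)] at h6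

/-- The Lipschitz estimate on `L^γ` for arbitrary base point. -/
lemma lip {β γ α : ℝ≥0∞} (hβ : 1 ≤ β) (hβγ : β < γ) (hγα : γ < α) (hα : α < ∞)
    (U : Lp ℂ β mu → Lp ℂ β mu) (M : ℝ≥0) (hM : 0 < M)
    (hU0 : ∀ x y : Lp ℂ β mu,
      eLpNorm (U x - U y : Lp ℂ β mu) β mu ≤ M * eLpNorm (x - y : Lp ℂ β mu) β mu)
    (hU1 : ∀ x y : Lp ℂ β mu, MemLp x α mu → MemLp y α mu →
      eLpNorm (U x - U y : Lp ℂ β mu) α mu ≤ M * eLpNorm (x - y : Lp ℂ β mu) α mu)
    (x y : Lp ℂ β mu) :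
    eLpNorm (U x - U y : Lp ℂ β mu) γ mu ≤ ENNReal.ofReal (2 * (γ.toReal *
      (1 / (α.toReal - γ.toReal) + 1 / (γ.toReal - β.toReal))) ^ (1 / γ.toReal)) * M *
      eLpNorm (x - y : Lp ℂ β mu) γ mu := by
  have : Fact (1 ≤ β) := ⟨hβ⟩
  have hβ0 : β ≠ 0 := (lt_of_lt_of_le one_pos hβ).ne'
  have hβ1 : β ≠ ∞ := ((hβγ.trans hγα).trans hα).ne
  have hlip : LipschitzWith M U := by
    apply LipschitzWith.of_dist_le_mul
    intro x y
    rw [dist_eq_norm, dist_eq_norm, Lp.norm_def, Lp.norm_def]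
    have h := hU0 x y
    have h2 := ENNReal.toReal_mono (ENNReal.mul_ne_top ENNReal.coe_ne_top (Lp.memLp _).2.ne) h
    rwa [ENNReal.toReal_mul, ENNReal.coe_toReal] at h2
  have hcont : Continuous U := hlip.continuous
  set d := x - y with hd
  set yn : ℕ → Lp ℂ β mu := fun n => trunc y (n:ℝ) with hyn
  have hyt : Tendsto yn atTop (𝓝 y) := trunc_tendsto hβ1 y
  have h1 : Tendsto (fun n => U (d + yn n) - U (yn n)) atTop (𝓝 (U x - U y)) := by
    have h2 : Tendsto (fun n => d + yn n) atTop (𝓝 x) := by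
      have := hyt.const_add d
      rwa [hd, sub_add_cancel] at this
    exact ((hcont.tendsto x).comp h2).sub ((hcont.tendsto y).comp hyt)
  rw [Lp.tendsto_Lp_iff_tendsto_eLpNorm'] at h1
  have h3 := tendstoInMeasure_of_tendsto_eLpNorm hβ0 (fun n => (Lp.memLp _).1) (Lp.memLp _).1 h1
  obtain ⟨ns, -, hns⟩ := h3.exists_seq_tendsto_ae
  refine (Lp.eLpNorm_lim_le_liminf_eLpNorm (fun n => (Lp.memLp _).1) _ hns).trans ?_
  refine (liminf_le_liminf (v := fun _ : ℕ => ENNReal.ofReal (2 * (γ.toReal *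
      (1 / (α.toReal - γ.toReal) + 1 / (γ.toReal - β.toReal))) ^ (1 / γ.toReal)) * M *
      eLpNorm (d : Lp ℂ β mu) γ mu) (Eventually.of_forall (fun n => ?_))).trans ?_
  · exact shifted hβ hβγ hγα hα U M hM hU0 hU1 d (yn (ns n))
      (trunc_memLp y _ (Nat.cast_nonneg _) α)
  · rw [liminf_const]

/-- **Full answer to the problem.** For all exponents `1 ≤ β < γ < α < ∞` there is a constant
`C > 0` such that `L^γ[0,1]` is a Lipschitz interpolation space with constant `C` between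
`L^β[0,1]` and `L^α[0,1]`. -/
theorem result (β γ α : ℝ≥0∞) (hβ : 1 ≤ β) (hβγ : β < γ) (hγα : γ < α) (hα : α < ∞) :
    ∃ C : ℝ≥0, 0 < C ∧ IsLipschitzInterpolationSpace β γ α C := by
  have hβ1 : β ≠ ∞ := ((hβγ.trans hγα).trans hα).ne
  have hγ1 : γ ≠ ∞ := (hγα.trans hα).ne
  have hbc : β.toReal < γ.toReal := (ENNReal.toReal_lt_toReal hβ1 hγ1).2 hβγ
  have hca : γ.toReal < α.toReal := (ENNReal.toReal_lt_toReal hγ1 hα.ne).2 hγα
  have hc0 : 0 < γ.toReal := lt_of_le_of_lt ENNReal.toReal_nonneg hbc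
  set C : ℝ := 2 * (γ.toReal *
      (1 / (α.toReal - γ.toReal) + 1 / (γ.toReal - β.toReal))) ^ (1 / γ.toReal) with hC
  have hCpos : 0 < C := by
    have h1 : 0 < α.toReal - γ.toReal := by linarith
    have h2 : 0 < γ.toReal - β.toReal := by linarith
    positivity
  refine ⟨Real.toNNReal C, Real.toNNReal_pos.2 hCpos, ?_⟩
  intro U M₀ M₁ hU0 hU1
  have hmap := hU1.1
  have h0 : ∀ x y : Lp ℂ β mu,
      eLpNorm (U x - U y : Lp ℂ β mu) β mu ≤ M₀ * eLpNorm (x - y : Lp ℂ β mu) β mu := by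
    intro x y
    have h := hU0.2 x y (Lp.memLp x) (Lp.memLp y)
    rwa [dnorm_eq, dnorm_eq] at h
  have h1 : ∀ x y : Lp ℂ β mu, MemLp x α mu → MemLp y α mu →
      eLpNorm (U x - U y : Lp ℂ β mu) α mu ≤ M₁ * eLpNorm (x - y : Lp ℂ β mu) α mu := by
    intro x y hx hy
    have h := hU1.2 x y hx hy
    rwa [dnorm_eq, dnorm_eq] at h
  have key : ∀ x y : Lp ℂ β mu, MemLp x γ mu → MemLp y γ mu →
      eLpNorm (U x - U y : Lp ℂ β mu) γ mu ≤
      ((Real.toNNReal C * max M₀ M₁ : ℝ≥0) : ℝ≥0∞) * eLpNorm (x - y : Lp ℂ β mu) γ mu := by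
    intro x y hx hy
    have htop : eLpNorm (x - y : Lp ℂ β mu) γ mu ≠ ∞ :=
      ((memLp_congr_ae (Lp.coeFn_sub x y)).2 (hx.sub hy)).2.ne
    -- reduce to positive constants by adding a positive number
    have hpos : ∀ e : ℝ≥0, 0 < e → eLpNorm (U x - U y : Lp ℂ β mu) γ mu ≤
        ((Real.toNNReal C * (max M₀ M₁ + e) : ℝ≥0) : ℝ≥0∞) *
          eLpNorm (x - y : Lp ℂ β mu) γ mu := by
      intro e he
      have h2 := lip hβ hβγ hγα hα U (max M₀ M₁ + e) (lt_of_lt_of_le he (by simp))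
        (fun x y => (h0 x y).trans (by
          gcongr
          exact (le_max_left M₀ M₁).trans (by simp)))
        (fun x y hx hy => (h1 x y hx hy).trans (by
          gcongr
          exact (le_max_right M₀ M₁).trans (by simp))) x y
      rw [ENNReal.coe_mul]
      exact h2
    have hlim : Tendsto (fun e : ℝ≥0 => ((Real.toNNReal C * (max M₀ M₁ + e) : ℝ≥0) : ℝ≥0∞) *
          eLpNorm (x - y : Lp ℂ β mu) γ mu) (𝓝[>] 0)
          (𝓝 (((Real.toNNReal C * (max M₀ M₁ + 0) : ℝ≥0) : ℝ≥0∞) *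
            eLpNorm (x - y : Lp ℂ β mu) γ mu)) := by
      apply ENNReal.Tendsto.mul_const _ (Or.inr htop)
      rw [ENNReal.tendsto_coe]
      exact (tendsto_const_nhds.mul (tendsto_const_nhds.add tendsto_id)).mono_left
        nhdsWithin_le_nhds
    rw [add_zero] at hlim
    refine ge_of_tendsto hlim ?_
    filter_upwards [self_mem_nhdsWithin] with e he
    exact hpos e he
  refine ⟨?_, fun x y hx hy => by rw [dnorm_eq, dnorm_eq]; exact key x y hx hy⟩
  intro x hx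
  have h00 : MemLp (0 : Lp ℂ β mu) α mu := by
    refine (memLp_congr_ae (Lp.coeFn_zero ℂ β mu)).2 ?_
    exact MemLp.zero'
  have hU0' : MemLp (U 0) γ mu := (hmap 0 h00).mono_exponent hγα.le
  have h2 : MemLp (U x - U 0 : Lp ℂ β mu) γ mu := by
    refine ⟨(Lp.memLp _).1, lt_of_le_of_lt (key x 0 hx (h00.mono_exponent hγα.le)) ?_⟩
    rw [sub_zero]
    exact ENNReal.mul_lt_top ENNReal.coe_lt_top hx.2
  have h3 := (memLp_congr_ae (Lp.coeFn_sub (U x) (U 0))).1 h2
  have h4 := h3.add hU0'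
  rwa [sub_add_cancel] at h4

end Pool.Agent.Results.MP_6e3e44_an.LipInterp
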